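import Pool.Agent.Helper22.G4.Poly

/-! # G4-T2: the normal form is computable in polynomial time -/

namespace Pool.Agent.Helper42.G4

open Pool.Agent.Helper22.G4 Pool.Agent.Helper91.PolyTime

variable {α β : Type*} [PEnc α] [PEnc β]

theorem ptf_zipIdx {l : α → List β} (hl : PTF l) : PTF fun a => (l a).zipIdx := by
  have h1 : PTF fun p : α × ℕ => (match (l p.1)[p.2]? with
      | none => []
      | some b => [(b, p.2)] : List (β × ℕ)) :=
    PTF.optCase (o := fun p : α × ℕ => (l p.1)[p.2]?) (n := fun _ => ([] : List (β × ℕ)))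
      (s := fun p b => [(b, p.2)]) (PTF.getElem? PTF.id.snd (hl.comp PTF.id.fst)) (PTF.const _)
      (PTF.cons (PTF.pair PTF.id.snd PTF.id.fst.snd) (PTF.const _))
  have h2 := PTF.flatMap (f := fun (a : α) (i : ℕ) => (match (l a)[i]? with
      | none => []
      | some b => [(b, i)] : List (β × ℕ))) (PTF.range (PTF.length hl)) h1
  refine h2.of_eq fun a => ?_
  generalize l a = t
  induction t using List.reverseRecOn with
  | nil => rfl
  | append_singleton t b ih =>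
    rw [List.length_append, List.length_singleton, List.range_succ, List.flatMap_append,
      List.zipIdx_append]
    congr 1
    · rw [← ih]
      refine List.flatMap_congr fun i hi => ?_
      rw [List.getElem?_append_left (List.mem_range.1 hi)]
    · simp

theorem ptf_sumMap {l : α → List β} {f : α → β → ℕ} (hl : PTF l)
    (hf : PTF fun p : α × β => f p.1 p.2) : PTF fun a => ((l a).map (f a)).sum := by
  refine (PTF.length (PTF.flatMap (f := fun a b => List.range (f a b)) hl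
    (PTF.range hf))).of_eq fun a => ?_
  rw [List.length_flatMap]
  congr 1
  refine List.map_congr_left fun b _ => ?_
  rw [List.length_range]

theorem ptf_bnd : PTF fun L : List Q4 => bnd L := by
  unfold bnd
  refine PTF.add (ptf_sumMap (f := fun _ (q : Q4) => q.1 + q.2.1 + q.2.2.1 + q.2.2.2) PTF.id ?_)
    (PTF.const 2)
  exact PTF.add (PTF.add (PTF.add PTF.id.snd.fst PTF.id.snd.snd.fst) PTF.id.snd.snd.snd.fst)
    PTF.id.snd.snd.snd.snd

theorem ptf_av {f : α → ℕ} (hf : PTF f) : PTF fun a => av (f a) := PTF.mul (PTF.const 2) hf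

theorem ptf_bv {f : α → ℕ} (hf : PTF f) : PTF fun a => bv (f a) :=
  PTF.ite (PTF.isZero hf) (PTF.const 0) (PTF.succ (PTF.mul (PTF.const 2) hf))

theorem ptf_posQ {R t : α → ℕ} {q : α → Q4} (hR : PTF R) (ht : PTF t) (hq : PTF q) :
    PTF fun a => posQ (R a) (t a) (q a) := by
  have h0 : PTF fun a => 2 * R a + 9 * t a :=
    PTF.add (PTF.mul (PTF.const 2) hR) (PTF.mul (PTF.const 9) ht)
  have hk : ∀ k, PTF fun a => 2 * R a + 9 * t a + k := fun k => PTF.add h0 (PTF.const k)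
  have h4 : ∀ {k : ℕ} {a b c : α → ℕ}, PTF a → PTF b → PTF c →
      PTF fun x => ((k, a x, b x, c x) : PC) := fun ha hb hc =>
    PTF.pair (PTF.const _) (PTF.pair ha (PTF.pair hb hc))
  unfold posQ
  exact PTF.cons (h4 (ptf_av hq.fst) (ptf_av hq.snd.fst) h0)
    (PTF.cons (h4 (ptf_bv hq.fst) (ptf_bv hq.snd.fst) (hk 1))
    (PTF.cons (h4 (ptf_av hq.fst) (ptf_bv hq.snd.fst) (hk 2))
    (PTF.cons (h4 (ptf_bv hq.fst) (ptf_av hq.snd.fst) (hk 3))
    (PTF.cons (h4 h0 (hk 1) (hk 4))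
    (PTF.cons (h4 (hk 2) (hk 3) (hk 5))
    (PTF.cons (h4 (hk 4) (ptf_av hq.snd.snd.fst) (hk 6))
    (PTF.cons (h4 (hk 5) (ptf_bv hq.snd.snd.fst) (hk 7))
    (PTF.cons (h4 (hk 6) (ptf_bv hq.snd.snd.snd) (hk 8))
    (PTF.cons (h4 (hk 7) (ptf_av hq.snd.snd.snd) (hk 8)) (PTF.const _))))))))))

theorem ptf_posOf : PTF fun L : List Q4 => posOf L := by
  unfold posOf
  refine PTF.cons (PTF.const _) ?_
  exact PTF.flatMap (f := fun (L : List Q4) (q : Q4 × ℕ) => posQ (bnd L) q.2 q.1)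
    (ptf_zipIdx PTF.id) (ptf_posQ (ptf_bnd.comp PTF.id.fst) PTF.id.snd.snd PTF.id.snd.fst)

theorem ptf_nvar : PTF fun L : List Q4 => nvar L :=
  PTF.add (PTF.mul (PTF.const 2) ptf_bnd) (PTF.mul (PTF.const 9) (PTF.length PTF.id))

theorem ptf_lA {B i : α → ℕ} (hB : PTF B) (hi : PTF i) : PTF fun a => lA (B a) (i a) :=
  PTF.add (PTF.add hB (PTF.const 3)) (PTF.mul (PTF.const 2) hi)

theorem ptf_lS {B i : α → ℕ} (hB : PTF B) (hi : PTF i) : PTF fun a => lS (B a) (i a) :=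
  PTF.succ (PTF.add (PTF.add hB (PTF.const 3)) (PTF.mul (PTF.const 2) hi))

theorem ptf_lC {B n i : α → ℕ} (hB : PTF B) (hn : PTF n) (hi : PTF i) :
    PTF fun a => lC (B a) (n a) (i a) :=
  PTF.add (PTF.add (PTF.add hB (PTF.const 3)) (PTF.mul (PTF.const 2) hn))
    (PTF.mul (PTF.const 2) hi)

theorem ptf_lM {B n i : α → ℕ} (hB : PTF B) (hn : PTF n) (hi : PTF i) :
    PTF fun a => lM (B a) (n a) (i a) :=
  PTF.succ (PTF.add (PTF.add (PTF.add hB (PTF.const 3)) (PTF.mul (PTF.const 2) hn))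
    (PTF.mul (PTF.const 2) hi))

theorem ptf_lD {B n : α → ℕ} (hB : PTF B) (hn : PTF n) : PTF fun a => lD (B a) (n a) :=
  PTF.add (PTF.add hB (PTF.const 3)) (PTF.mul (PTF.const 4) hn)

theorem ptf_lE {B n : α → ℕ} (hB : PTF B) (hn : PTF n) : PTF fun a => lE (B a) (n a) :=
  PTF.succ (PTF.add (PTF.add hB (PTF.const 3)) (PTF.mul (PTF.const 4) hn))

theorem ptf_op {k : Bool} {a b c : α → ℕ} (ha : PTF a) (hb : PTF b) (hc : PTF c) :
    PTF fun x => ((k, a x, b x, c x) : Op) :=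
  PTF.pair (PTF.const _) (PTF.pair ha (PTF.pair hb hc))

theorem ptf_modConv {B n i : α → ℕ} (hB : PTF B) (hn : PTF n) (hi : PTF i) :
    PTF fun a => modConv (B a) (n a) (i a) := by
  have h0 : PTF fun a => 8 * i a := PTF.mul (PTF.const 8) hi
  have hk : ∀ k, PTF fun a => 8 * i a + k := fun k => PTF.add h0 (PTF.const k)
  unfold modConv
  exact PTF.cons (ptf_op (ptf_lA hB hi) h0 (hk 1))
    (PTF.cons (ptf_op (ptf_lS hB hi) h0 (hk 2))
    (PTF.cons (ptf_op (ptf_lC hB hn hi) (hk 1) (hk 3))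
    (PTF.cons (ptf_op (ptf_lC hB hn hi) (hk 2) (hk 4))
    (PTF.cons (ptf_op (ptf_lM hB hn hi) (hk 3) (hk 4)) (PTF.const _)))))

theorem ptf_modCon {B n b : α → ℕ} {q : α → PC} (hB : PTF B) (hn : PTF n) (hb : PTF b)
    (hq : PTF q) : PTF fun a => modCon (B a) (n a) (b a) (q a) := by
  have hk : ∀ k, PTF fun a => b a + k := fun k => PTF.add hb (PTF.const k)
  have h1 := hq.snd.fst
  have h2 := hq.snd.snd.fst
  have h3 := hq.snd.snd.snd
  unfold modCon
  refine PTF.ite (PTF.isZero hq.fst) ?_ (PTF.ite (PTF.eq hq.fst (PTF.const 1)) ?_ ?_)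
  · exact PTF.cons (ptf_op (ptf_lS hB h1) hb (hk 1))
      (PTF.cons (ptf_op (ptf_lS hB h2) (hk 1) (hk 2))
      (PTF.cons (ptf_op (ptf_lA hB h3) (hk 2) (hk 3))
      (PTF.cons (ptf_op (ptf_lD hB hn) hb (hk 4))
      (PTF.cons (ptf_op (ptf_lS hB h3) (hk 4) (hk 5))
      (PTF.cons (ptf_op (ptf_lA hB h1) (hk 5) (hk 6))
      (PTF.cons (ptf_op (ptf_lA hB h2) (hk 6) (hk 7))
      (PTF.cons (ptf_op (ptf_lD hB hn) (hk 3) (hk 7)) (PTF.const _))))))))
  · exact PTF.cons (ptf_op (ptf_lM hB hn h1) hb (hk 1))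
      (PTF.cons (ptf_op (ptf_lM hB hn h2) (hk 1) (hk 2))
      (PTF.cons (ptf_op (ptf_lC hB hn h3) (hk 2) (hk 3))
      (PTF.cons (ptf_op (ptf_lE hB hn) hb (hk 4))
      (PTF.cons (ptf_op (ptf_lM hB hn h3) (hk 4) (hk 5))
      (PTF.cons (ptf_op (ptf_lC hB hn h1) (hk 5) (hk 6))
      (PTF.cons (ptf_op (ptf_lC hB hn h2) (hk 6) (hk 7))
      (PTF.cons (ptf_op (ptf_lE hB hn) (hk 3) (hk 7)) (PTF.const _))))))))
  · exact PTF.cons (ptf_op (ptf_lS hB h3) hb (hk 1))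
      (PTF.cons (ptf_op (ptf_lA hB h1) (hk 1) (hk 2))
      (PTF.cons (ptf_op (ptf_lD hB hn) hb (hk 3))
      (PTF.cons (ptf_op (ptf_lS hB h1) (hk 3) (hk 4))
      (PTF.cons (ptf_op (ptf_lA hB h3) (hk 4) (hk 5))
      (PTF.cons (ptf_op (PTF.add hB (PTF.const 2)) (hk 5) (hk 6))
      (PTF.cons (ptf_op (ptf_lD hB hn) (hk 2) (hk 6)) (PTF.const _)))))))

theorem ptf_nfOf {n : α → ℕ} {C : α → List PC} (hn : PTF n) (hC : PTF C) :
    PTF fun a => nfOf (n a) (C a) := by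
  have hB : PTF fun a => 8 * (n a + (C a).length) :=
    PTF.mul (PTF.const 8) (PTF.add hn (PTF.length hC))
  unfold nfOf
  refine PTF.pair hB (PTF.pair (PTF.add (PTF.mul (PTF.const 4) hn) (PTF.const 2))
    (PTF.append ?_ ?_))
  · exact PTF.flatMap (f := fun a i => modConv (8 * (n a + (C a).length)) (n a) i) (PTF.range hn)
      (ptf_modConv (hB.comp PTF.id.fst) (hn.comp PTF.id.fst) PTF.id.snd)
  · exact PTF.flatMap (f := fun a (q : PC × ℕ) =>
      modCon (8 * (n a + (C a).length)) (n a) (8 * (n a + q.2)) q.1) (ptf_zipIdx hC)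
      (ptf_modCon (hB.comp PTF.id.fst) (hn.comp PTF.id.fst)
        (PTF.mul (PTF.const 8) (PTF.add (hn.comp PTF.id.fst) PTF.id.snd.snd)) PTF.id.snd.fst)

/-- G4-T2 -/
theorem ptf_nfQ : PTF fun L : List Q4 => nfQ L := ptf_nfOf ptf_nvar ptf_posOf

end Pool.Agent.Helper42.G4
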